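import Pool.Agent.H86.AW.CUG

/-!
# MP_70ba79_ag, board `aw_modules`: CU2, the inequality for one curve
-/

set_option autoImplicit false

namespace Pool.Agent.H86.AW

open MvPolynomial SC Pool.Agent.H27.LV Pool.Agent.H30.AV Pool.Agent.H30.AW

/-- summation of the local inequalities -/
theorem global_core (hPFM : T_PFM) (hDFI : T_DFI) (hPFI : T_PFI) {k K : Type} [Field k]
    [IsAlgClosed k] [CharZero k] [Field K] [Algebra k K] [Algebra.EssFiniteType k K]
    (htr : Algebra.trdeg k K = 1) {m n q w : ℕ} {M : ℤ} {a : Fin q → Fin (n + 1) → k}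
    {S : Finset (DV k K)} {y : Fin n → K} {D : Derivation k K K} (hD : D ≠ 0) {Θ : K}
    {κ : DV k K → ℤ}
    (hκ : ∀ T : Finset (DV k K), S ⊆ T → (∀ v, v ∉ T → poleOrder v y = 0) →
      ∑ v ∈ T, κ v = ∑ v ∈ T, ordD v D - S.card - 2 * ∑ v ∈ T, (poleOrder v y : ℤ))
    (hloc : ∀ v : DV k K, m * M * κ v + w * ((m - 1) *
      ∑ i, (v.ord (ell (a i) (xx y)) + poleOrder v y)) ≤ m * v.ord Θ) :
    (((m : ℤ) - 1) * q * w - 2 * m * M) * deg k y ≤ m * M * (canDeg D + S.card) := by
  classical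
  have hf1 := (hPFM k K htr Θ).1
  have hf2 := hDFI k K htr D hD
  have hf3 := hPFI k K htr (Fin n) y
  have hf4 : (⋃ i, {v : DV k K | v.ord (ell (a i) (xx y)) ≠ 0}).Finite :=
    Set.finite_iUnion fun i => (hPFM k K htr (ell (a i) (xx y))).1
  obtain ⟨T, hST, hT⟩ : ∃ T : Finset (DV k K), S ⊆ T ∧ ∀ v, v ∉ T → v.ord Θ = 0 ∧
      ordD v D = 0 ∧ poleOrder v y = 0 ∧ ∀ i, v.ord (ell (a i) (xx y)) = 0 := by
    refine ⟨S ∪ (hf1.toFinset ∪ hf2.toFinset ∪ hf3.toFinset ∪ hf4.toFinset),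
      Finset.subset_union_left, fun v hv => ?_⟩
    simp only [Finset.mem_union, Set.Finite.mem_toFinset, Set.mem_ofPred_eq, not_or, not_not,
      Set.mem_iUnion, not_exists] at hv
    exact ⟨hv.2.1.1.1, hv.2.1.1.2, hv.2.1.2, hv.2.2⟩
  have s1 : ∑ v ∈ T, v.ord Θ = 0 := by
    rw [← (hPFM k K htr Θ).2, finsum_eq_sum_of_support_subset]
    intro v hv
    by_contra hcon
    exact hv (hT v hcon).1
  have s2 : ∑ v ∈ T, ordD v D = -canDeg D := by
    unfold canDeg
    rw [neg_neg, finsum_eq_sum_of_support_subset]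
    intro v hv
    by_contra hcon
    exact hv (hT v hcon).2.1
  have s3 : ∑ v ∈ T, (poleOrder v y : ℤ) = deg k y := by
    rw [cast_deg htr, finsum_eq_sum_of_support_subset]
    intro v hv
    by_contra hcon
    exact hv (by
      simp only
      exact_mod_cast (hT v hcon).2.2.1)
  have s4 : ∀ i, ∑ v ∈ T, v.ord (ell (a i) (xx y)) = 0 := by
    intro i
    rw [← (hPFM k K htr (ell (a i) (xx y))).2, finsum_eq_sum_of_support_subset]
    intro v hv
    by_contra hcon
    exact hv ((hT v hcon).2.2.2 i)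
  have s5 : ∑ v ∈ T, ∑ i, (v.ord (ell (a i) (xx y)) + poleOrder v y) = q * deg k y := by
    rw [Finset.sum_comm]
    have : ∀ i, ∑ v ∈ T, (v.ord (ell (a i) (xx y)) + poleOrder v y : ℤ) = deg k y := fun i => by
      rw [Finset.sum_add_distrib, s4, s3, zero_add]
    rw [Finset.sum_congr rfl fun i _ => this i, Finset.sum_const, Finset.card_univ,
      Fintype.card_fin, nsmul_eq_mul]
  have s6 := hκ T hST fun v hv => (hT v hv).2.2.1
  rw [s2, s3] at s6
  have hfin := Finset.sum_le_sum fun (v : DV k K) (_ : v ∈ T) => hloc v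
  rw [Finset.sum_add_distrib, ← Finset.mul_sum, ← Finset.mul_sum, ← Finset.mul_sum,
    ← Finset.mul_sum, s1, s5, s6] at hfin
  linarith

theorem pf_CU2 (hLO2 : T_LO2) (hRAT : T_RAT) (hPFM : T_PFM) (hDFI : T_DFI) (hPFI : T_PFI) :
    T_CU2 := by
  intro k K _ _ _ _ _ _ htr m n q r β N w c e a b μ S y x D G g h hm hD hS _ hx hμ hxm hI hE
    hwr hG hg hh hrel hne
  classical
  have hL := fun (i : Fin q) (d : Fin 2) (v : DV k K) => hLO2 k K htr n m (μ i) (a i) (b i d) S
    y (x i) D hD hS (hx i) hm (hμ i) (hxm i) v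
  have hlift : ∀ (v : DV k K) p, ge v (kap D S y v) (lift2 y D p) := fun v p =>
    (hLO2 k K htr n 2 2 (Fin.cons 1 0) 0 S y 1 D hD hS one_ne_zero le_rfl le_rfl (by
      rw [one_pow, ell, Fin.sum_univ_succ]
      simp [xx]) v).2.2.1 p
  refine global_core hPFM hDFI hPFI htr (a := a) (Θ := aeval (lift2 y D) (G * ∏ I, g I))
    (κ := kap D S y) hD ?_ fun v => ?_
  · intro T hST hT
    simp only [kap]
    rw [Finset.sum_sub_distrib, ← Finset.sum_filter]
    have h1 : T.filter (fun v => v ∈ S) = S := by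
      ext v
      simp only [Finset.mem_filter]
      exact ⟨fun h => h.2, fun h => ⟨hST h, h⟩⟩
    rw [h1, Finset.sum_add_distrib, ← Finset.mul_sum]
    have h2 : ∑ v ∈ S, (poleOrder v y : ℤ) = ∑ v ∈ T, (poleOrder v y : ℤ) := by
      apply Finset.sum_subset hST
      intro v _ hv
      simp only [Nat.cast_eq_zero]
      unfold poleOrder
      rw [← Nat.le_zero]
      refine Finset.sup_le fun i _ => ?_
      have := hS v hv i
      omega
    rw [h2]
    simp
    ring
  · exact local_core (hRAT k K htr v).2 hm (fun i => (hL i 0 v).1) (hlift v)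
      (fun i d => (hL i d v).2.2.2) (hI v) (hE v) hwr hG hg hh hrel hne

end Pool.Agent.H86.AW
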