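import Pool.Agent.H73.AW.HamX
import Pool.Agent.H73.AD.Two
import Pool.Agent.H86.AD.ChainB

/-! Good assignments are hard: the chain argument for Hamiltonians which are polynomials in the
cost. -/

namespace Pool.Agent.H73.AW

open Finset Matrix Pool.Agent.H73.QA Pool.Agent.H73.AD

set_option linter.unusedSectionVars false
set_option linter.deprecated false

variable {n k m : ℕ} {Y : Type} [Fintype Y] [DecidableEq Y] {p q r : ℕ}

section chainW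
variable {α κ Λ t u ε δ ν g : ℝ} {G : Fin m → Clause n k} {w : Fin p → List (Letter n m Y)}
    {T : Fin q → List (Letter n m Y)} {z : Cube n}

theorem lin_eq (A : Op n Y) : lin A = toEuclideanLin A := rfl

theorem lin_one' (v : Sp n Y) : lin (1 : Op n Y) v = v := by
  rw [lin_eq]
  ext x
  rw [toEuclideanLin_apply]
  simp

theorem lin_symm {A : Op n Y} (hA : A.IsHermitian) : (lin A).IsSymmetric := by
  rw [lin_eq]
  exact isHermitian_iff_isSymmetric.1 hA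

/-- a Hamiltonian of a schedule -/
structure NodeW (α κ Λ g : ℝ) (G : Fin m → Clause n k) (w : Fin p → List (Letter n m Y))
    (z : Cube n) (a : Fin p → ℝ) (E : ℝ) (ψ : Cube n × Y → ℂ) : Prop where
  coeff : ∑ j, |a j| ≤ Λ
  iso : Iso (Ham (Letter.op G z) w a) g E ψ
  low : LowE α κ (Ham (Letter.op G z) w a) (Ham Letter.av w a) E

/-- the flattened Hamiltonian has an eigenvalue near `E` -/
def TypeW (κ δ g : ℝ) (G : Fin m → Clause n k) (w : Fin p → List (Letter n m Y))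
    (z : Cube n) (a : Fin p → ℝ) (E : ℝ) : Prop :=
  ∃ (f : ℝ) (φ : Sp n Y), ‖φ‖ = 1 ∧ lin (Ham (Letter.flt G δ z) w a) φ = (f : ℂ) • φ ∧
    |f - E| < κ * g / 8

theorem few_mono {α κ κ' E E' : ℝ} {A : Op n Y} (h : Few α κ E A) (hle : E' + κ' ≤ E + κ) :
    Few α κ' E' A := by
  obtain ⟨hA, h1⟩ := h
  refine ⟨hA, le_trans ?_ h1⟩
  exact_mod_cast card_le_card fun i hi => by
    simp only [mem_filter, mem_univ, true_and] at hi ⊢
    linarith

/-- the data of a node in the Hilbert space -/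
theorem nodeW_hilbert {a : Fin p → ℝ} {E : ℝ} {ψ : Cube n × Y → ℂ}
    (hn : NodeW α κ Λ g G w z a E ψ) :
    ‖(WithLp.toLp 2 ψ : Sp n Y)‖ = 1 ∧
    lin (Ham (Letter.op G z) w a) (WithLp.toLp 2 ψ) = (E : ℂ) • (WithLp.toLp 2 ψ : Sp n Y) ∧
    ∀ v : Sp n Y, inner ℂ (WithLp.toLp 2 ψ : Sp n Y) v = 0 → g * ‖v‖ ≤
      ‖lin (Ham (Letter.op G z) w a) v - (E : ℂ) • v‖ := by
  obtain ⟨h1, h2, h3⟩ := hn.iso
  refine ⟨norm_one_of_nsq h1, ?_, ?_⟩
  · rw [lin_eq, lin_toLp, h2]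
    rfl
  · intro v hv
    have h4 := h3 (WithLp.ofLp v) (by rw [← inner_toLp']; exact hv)
    rw [nsq_eq, nsq_eq, ← mul_pow] at h4
    exact le_of_sq_le_sq h4 (norm_nonneg _)

/-- the standing assumptions -/
structure ParW (α κ Λ u ε δ ν : ℝ) (r : ℕ) (G : Fin m → Clause n k)
    (w : Fin p → List (Letter n m Y)) (T : Fin q → List (Letter n m Y)) (z : Cube n) : Prop where
  hκ : 0 < κ
  hκ1 : κ ≤ 1
  hΛ : 0 ≤ Λ
  hε0 : 0 ≤ ε
  hε : ε ≤ 1
  hν0 : 0 ≤ ν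
  hsm : Λ * (r * 2 ^ (r + 1)) * (ν + ε + 2 / Real.sqrt (2 ^ k)) ≤ κ / 4
  hm : 0 < m
  hG : Typ ε δ ν G
  hw : ∀ i, ∀ l ∈ w i, l.Ok k
  hr : ∀ i, (w i).length ≤ r
  hT : ∀ i, ∀ l ∈ T i, l.Ok k
  hrT : ∀ i, (T i).length ≤ r
  hz : GoodW α κ Λ δ (κ * (2 : ℝ) ^ (-u * n) / (100 * (Λ + 1) * 4 ^ (r + 2))) r G w T z

/-- the numbers -/
theorem num_eta {κ τ Λ : ℝ} (hκ : 0 < κ) (hτ : 0 < τ) (hΛ : 0 ≤ Λ) (r : ℕ) :
    0 ≤ κ * τ / (100 * (Λ + 1) * 4 ^ (r + 2)) ∧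
    κ * τ / (100 * (Λ + 1) * 4 ^ (r + 2)) ≤ κ * τ / 1600 ∧
    2 ^ (r + 1) * (κ * τ / (100 * (Λ + 1) * 4 ^ (r + 2))) ≤ κ * τ / 800 ∧
    2 ^ r * (Λ * 2 ^ (r + 2) * (κ * τ / (100 * (Λ + 1) * 4 ^ (r + 2)))) ≤ κ * τ / 400 ∧
    Λ * 2 ^ (r + 2) * (κ * τ / (100 * (Λ + 1) * 4 ^ (r + 2))) ≤ κ * τ / 400 := by
  have h1 : (1 : ℝ) ≤ 2 ^ r := one_le_pow₀ (by norm_num)
  obtain ⟨e, he⟩ : ∃ e : ℝ, e = 2 ^ r := ⟨_, rfl⟩
  have h4 : (4 : ℝ) ^ (r + 2) = 16 * e ^ 2 := by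
    rw [he, ← pow_mul, pow_add, mul_comm r 2, pow_mul]
    norm_num
    ring
  rw [← he] at h1
  have hL : 0 < Λ + 1 := by linarith
  have hkt : 0 < κ * τ := mul_pos hκ hτ
  have hη : κ * τ / (100 * (Λ + 1) * 4 ^ (r + 2)) = κ * τ / 1600 / ((Λ + 1) * e ^ 2) := by
    rw [h4]
    field_simp
    norm_num
  have he0 : 0 < e := by linarith
  have hd : 1 ≤ (Λ + 1) * e ^ 2 := by
    have : 1 ≤ e ^ 2 := one_le_pow₀ h1
    nlinarith
  have hd0 : 0 < (Λ + 1) * e ^ 2 := by positivity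
  have hkt' : 0 < κ * τ / 1600 := by positivity
  have p1 : (2 : ℝ) ^ (r + 1) = 2 * e := by rw [he, pow_succ]; ring
  have p2 : (2 : ℝ) ^ (r + 2) = 4 * e := by rw [he, pow_add]; norm_num; ring
  rw [hη, p1, p2, ← he]
  have k1 : κ * τ / 1600 / ((Λ + 1) * e ^ 2) ≤ κ * τ / 1600 := div_le_self hkt'.le hd
  have k3 : 2 * e * (κ * τ / 1600 / ((Λ + 1) * e ^ 2)) ≤ κ * τ / 800 := by
    have h5 : e * (κ * τ / 1600 / ((Λ + 1) * e ^ 2)) = κ * τ / 1600 / ((Λ + 1) * e) := by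
      field_simp
    have h6 : κ * τ / 1600 / ((Λ + 1) * e) ≤ κ * τ / 1600 :=
      div_le_self hkt'.le (by nlinarith)
    rw [mul_assoc, h5]
    linarith
  have k4 : e * (Λ * (4 * e) * (κ * τ / 1600 / ((Λ + 1) * e ^ 2))) ≤ κ * τ / 400 := by
    have h5 : e * (Λ * (4 * e) * (κ * τ / 1600 / ((Λ + 1) * e ^ 2))) =
        κ * τ / 400 * (Λ / (Λ + 1)) := by
      field_simp
      ring
    rw [h5]
    have h6 : Λ / (Λ + 1) ≤ 1 := (div_le_one hL).2 (by linarith)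
    have h7 : 0 < κ * τ / 400 := by positivity
    nlinarith
  refine ⟨by positivity, k1, k3, k4, ?_⟩
  have h5 : 0 ≤ Λ * (4 * e) * (κ * τ / 1600 / ((Λ + 1) * e ^ 2)) := by positivity
  nlinarith

theorem ns_zero {η : ℝ} {v : Sp n Y} (h : NS G δ η w T z v) : ‖nearP (hball δ z) v‖ ≤ η := by
  have h1 := h none 0
  have h2 : lin (wd (Letter.flt G δ z) ((allW w T none).drop 0)) v = v := by
    change lin (wd (Letter.flt G δ z) []) v = v
    unfold wd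
    rw [List.map_nil, List.prod_nil, lin_one']
  rwa [h2] at h1

/-- the level condition for the averaged Hamiltonian -/
theorem nodeW_few (hP : ParW α κ Λ u ε δ ν r G w T z) (hu : (2 : ℝ) ^ (-u * n) ≤ 1)
    {a : Fin p → ℝ} {E : ℝ} {ψ : Cube n × Y → ℂ} (hn : NodeW α κ Λ g G w z a E ψ) :
    Few α (κ / 2) E (Ham Letter.av w a) := by
  obtain ⟨τ, hτ⟩ : ∃ τ : ℝ, τ = (2 : ℝ) ^ (-u * n) := ⟨_, rfl⟩
  have hτ0 : 0 < τ := by rw [hτ]; positivity
  have hκ := hP.hκ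
  obtain ⟨hη0, -, -, -, hη4⟩ := num_eta hκ hτ0 hP.hΛ r
  have hz := hP.hz
  rw [← hτ] at hu hz
  rcases hn.low with h1 | ⟨h1, E0, v, hv0, hv, hf⟩
  · exact few_mono h1 (by linarith)
  · -- normalise `v`
    have hv0' : (WithLp.toLp 2 v : Sp n Y) ≠ 0 := by
      intro h
      apply hv0
      have := congrArg WithLp.ofLp h
      simpa using this
    obtain ⟨x, hx⟩ : ∃ x : Sp n Y, x = ((‖(WithLp.toLp 2 v : Sp n Y)‖⁻¹ : ℝ) : ℂ) •
      (WithLp.toLp 2 v : Sp n Y) := ⟨_, rfl⟩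
    have hx1 : ‖x‖ = 1 := by
      rw [hx, norm_smul, Complex.norm_real, Real.norm_of_nonneg (by positivity)]
      exact inv_mul_cancel₀ (norm_ne_zero_iff.2 hv0')
    have hxe : lin (Ham Letter.av w a) x = (E0 : ℂ) • x := by
      rw [hx, map_smul, lin_eq, lin_toLp, hv, smul_comm]
      rfl
    have hNS := hz.g0 a E0 x hn.coeff hx1 hxe hf
    have h2 := ham_diff hP.hm hP.hε hP.hG hη0 z w T hP.hw hP.hr a hn.coeff x hNS
    have h3 := ham_av_flt (δ := δ) hP.hm hP.hε0 hP.hε hP.hν0 hP.hG z w hP.hw hP.hr a hn.coeff x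
    rw [hx1, mul_one] at h3
    have h4 : ‖lin (Ham Letter.av w a) x - lin (Ham (Letter.op G z) w a) x‖ ≤ κ / 2 := by
      have h5 : lin (Ham Letter.av w a) x - lin (Ham (Letter.op G z) w a) x =
          (lin (Ham Letter.av w a) x - lin (Ham (Letter.flt G δ z) w a) x) +
          (lin (Ham (Letter.flt G δ z) w a) x - lin (Ham (Letter.op G z) w a) x) := by abel
      rw [h5]
      refine (norm_add_le _ _).trans ?_
      have h6 := hP.hsm
      have h7 : κ * τ ≤ κ := by nlinarith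
      linarith
    have h5 : E ≤ (inner ℂ x (lin (Ham (Letter.op G z) w a) x)).re := by
      have h6 := h1 (WithLp.ofLp x)
      rw [quad_toLp, nsq_eq] at h6
      change E * ‖x‖ ^ 2 ≤ (inner ℂ x (lin (Ham (Letter.op G z) w a) x)).re at h6
      rwa [hx1, one_pow, mul_one] at h6
    have h6 : (inner ℂ x (lin (Ham (Letter.op G z) w a) x)).re = E0 -
        (inner ℂ x (lin (Ham Letter.av w a) x - lin (Ham (Letter.op G z) w a) x)).re := by
      rw [inner_sub_right, Complex.sub_re, eig_re hx1 hxe]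
      ring
    have h7 : |(inner ℂ x (lin (Ham Letter.av w a) x -
        lin (Ham (Letter.op G z) w a) x)).re| ≤ κ / 2 := by
      refine (Complex.abs_re_le_norm _).trans ((norm_inner_le_norm _ _).trans ?_)
      rw [hx1, one_mul]
      exact h4
    have h8 := (abs_le.1 h7).1
    exact few_mono hf (by linarith)

theorem nodeW_bound (hP : ParW α κ Λ u ε δ ν r G w T z) {a : Fin p → ℝ} {E : ℝ}
    {ψ : Cube n × Y → ℂ} (hn : NodeW α κ Λ g G w z a E ψ) : |E| ≤ Λ * 2 ^ (r + 1) := by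
  obtain ⟨h1, h2, -⟩ := nodeW_hilbert hn
  have h3 := norm_ham_op hP.hm hP.hε hP.hG z w hP.hw hP.hr a hn.coeff (WithLp.toLp 2 ψ)
  rw [h2, norm_smul, h1, mul_one, mul_one, Complex.norm_real] at h3
  exact h3

/-- the flattened state near a node of type I -/
theorem typeW_core (hP : ParW α κ Λ u ε δ ν r G w T z) (hg : (2 : ℝ) ^ (-u * n) < g)
    (hg1 : g ≤ 1) {a : Fin p → ℝ} {E : ℝ} {ψ : Cube n × Y → ℂ}
    (hn : NodeW α κ Λ g G w z a E ψ) (hI : TypeW κ δ g G w z a E) :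
    ∃ (f : ℝ) (φ χ : Sp n Y) (c : ℂ), ‖φ‖ = 1 ∧
      lin (Ham (Letter.flt G δ z) w a) φ = (f : ℂ) • φ ∧ |f - E| ≤ κ / 8 ∧
      φ = c • (WithLp.toLp 2 ψ : Sp n Y) + χ ∧
      2 ^ r * (g * ‖χ‖) ≤ κ * (2 : ℝ) ^ (-u * n) / 300 ∧ 99 / 100 ≤ ‖c‖ ∧
      NS G δ (κ * (2 : ℝ) ^ (-u * n) / (100 * (Λ + 1) * 4 ^ (r + 2))) w T z φ := by
  have hfew := nodeW_few hP (hg.le.trans hg1) hn
  obtain ⟨τ, hτ⟩ : ∃ τ : ℝ, τ = (2 : ℝ) ^ (-u * n) := ⟨_, rfl⟩
  have hτ0 : 0 < τ := by rw [hτ]; positivity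
  have hκ := hP.hκ
  have hκ1 := hP.hκ1
  obtain ⟨hη0, -, -, hη3, hη4⟩ := num_eta hκ hτ0 hP.hΛ r
  have hz := hP.hz
  rw [← hτ] at hg hz ⊢
  have hg0 : 0 < g := hτ0.trans hg
  obtain ⟨f, φ, hφ, hf, hfE⟩ := hI
  have hκg : κ * g ≤ κ := by nlinarith
  have hfE' : |f - E| ≤ κ / 8 := by linarith
  have hNS := hz.g1 a E f φ hn.coeff hφ hf hfew hfE'
  have hdiff := ham_diff hP.hm hP.hε hP.hG hη0 z w T hP.hw hP.hr a hn.coeff φ hNS
  obtain ⟨hψ1, hψ2, hψ3⟩ := nodeW_hilbert hn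
  obtain ⟨c, χ, h1, h2, h3⟩ := near_eig (H := lin (Ham (Letter.op G z) w a))
    (N := lin (Ham (Letter.flt G δ z) w a) - lin (Ham (Letter.op G z) w a))
    (lin_symm (ham_herm _ w a)) hg0 hψ1 hψ2 hψ3 (f := f) (φ := φ)
    (ν := Λ * 2 ^ (r + 2) * (κ * τ / (100 * (Λ + 1) * 4 ^ (r + 2))))
    (by rw [LinearMap.sub_apply, add_sub_cancel]; exact hf)
    (by
      have : κ * g ≤ g := by nlinarith
      linarith)
    (by rw [LinearMap.sub_apply]; exact hdiff)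
  have h1r : (1 : ℝ) ≤ 2 ^ r := one_le_pow₀ (by norm_num)
  have hχ : 2 ^ r * (g * ‖χ‖) ≤ κ * τ / 300 := by
    have h4 : 2 ^ r * (3 * (g * ‖χ‖)) ≤
        2 ^ r * (4 * (Λ * 2 ^ (r + 2) * (κ * τ / (100 * (Λ + 1) * 4 ^ (r + 2))))) :=
      mul_le_mul_of_nonneg_left h3 (by linarith)
    linarith
  refine ⟨f, φ, χ, c, hφ, hf, hfE', h1, hχ, ?_, hNS⟩
  have h4 := two_pyth h2 c
  rw [← h1, hφ, hψ1] at h4
  have h5 : ‖χ‖ ≤ 1 / 100 := by
    have h6 : κ * τ ≤ g := by nlinarith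
    have h8 : g * ‖χ‖ ≤ 2 ^ r * (g * ‖χ‖) := by
      have : 0 ≤ g * ‖χ‖ := by positivity
      nlinarith
    have h7 : g * ‖χ‖ ≤ g * (1 / 100) := by linarith
    exact le_of_mul_le_mul_left h7 hg0
  have h6 : ‖χ‖ ^ 2 ≤ (1 / 100) ^ 2 := pow_le_pow_left₀ (norm_nonneg _) h5 2
  refine le_of_sq_le_sq ?_ (norm_nonneg _)
  nlinarith

theorem typeW_out (hP : ParW α κ Λ u ε δ ν r G w T z) (hg : (2 : ℝ) ^ (-u * n) < g)
    (hg1 : g ≤ 1) {a : Fin p → ℝ} {E : ℝ} {ψ : Cube n × Y → ℂ}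
    (hn : NodeW α κ Λ g G w z a E ψ) (hI : TypeW κ δ g G w z a E) :
    ‖nearP (hball δ z) (WithLp.toLp 2 ψ : Sp n Y)‖ ≤ (2 : ℝ) ^ (-u * n) / g := by
  obtain ⟨f, φ, χ, c, hφ, hf, hf2, h1, hχ, hc, hNS⟩ := typeW_core hP hg hg1 hn hI
  obtain ⟨τ, hτ⟩ : ∃ τ : ℝ, τ = (2 : ℝ) ^ (-u * n) := ⟨_, rfl⟩
  have hτ0 : 0 < τ := by rw [hτ]; positivity
  have hκ := hP.hκ
  have hκ1 := hP.hκ1
  obtain ⟨hη0, hη1, -, -, -⟩ := num_eta hκ hτ0 hP.hΛ r
  rw [← hτ] at hg hχ hNS ⊢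
  have hg0 : 0 < g := hτ0.trans hg
  have hnear := (ns_zero hNS).trans hη1
  have h1r : (1 : ℝ) ≤ 2 ^ r := one_le_pow₀ (by norm_num)
  have h2 : c • nearP (hball δ z) (WithLp.toLp 2 ψ : Sp n Y) =
      nearP (hball δ z) φ - nearP (hball δ z) χ := by
    rw [h1, map_add, map_smul]
    abel
  have h3 : ‖c‖ * ‖nearP (hball δ z) (WithLp.toLp 2 ψ : Sp n Y)‖ ≤
      κ * τ / 1600 + ‖χ‖ := by
    rw [← norm_smul, h2]
    exact (norm_sub_le _ _).trans (add_le_add hnear (norm_nearP_le _ _))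
  rw [le_div_iff₀ hg0]
  have h4 : g * (‖c‖ * ‖nearP (hball δ z) (WithLp.toLp 2 ψ : Sp n Y)‖) ≤
      g * (κ * τ / 1600 + ‖χ‖) := mul_le_mul_of_nonneg_left h3 hg0.le
  have h5 : 99 / 100 * (g * ‖nearP (hball δ z) (WithLp.toLp 2 ψ : Sp n Y)‖) ≤
      ‖c‖ * (g * ‖nearP (hball δ z) (WithLp.toLp 2 ψ : Sp n Y)‖) :=
    mul_le_mul_of_nonneg_right hc (by positivity)
  have h6 : g * (κ * τ / 1600) ≤ κ * τ / 1600 := by
    have : 0 ≤ κ * τ / 1600 := by positivity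
    nlinarith
  have h7 : κ * τ ≤ τ := by nlinarith
  have h8 : g * ‖χ‖ ≤ 2 ^ r * (g * ‖χ‖) := by
    have : 0 ≤ g * ‖χ‖ := by positivity
    nlinarith
  nlinarith

theorem typeW_start (hκ : 0 < κ) (hg : 0 < g) {a : Fin p → ℝ} {E : ℝ}
    {ψ : Cube n × Y → ℂ} (hn : NodeW α κ Λ g G w z a E ψ)
    (ha : ∀ i, a i ≠ 0 → Letter.cost ∉ w i) : TypeW κ δ g G w z a E := by
  obtain ⟨hψ1, hψ2, -⟩ := nodeW_hilbert hn
  refine ⟨E, WithLp.toLp 2 ψ, hψ1, ?_, ?_⟩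
  · rw [ham_start z w a ha, hψ2]
  · rw [sub_self, abs_zero]
    positivity

theorem typeW_step (hP : ParW α κ Λ u ε δ ν r G w T z) (hg : (2 : ℝ) ^ (-u * n) < g)
    (hg1 : g ≤ 1) {a a' : Fin p → ℝ} {E E' : ℝ} {ψ ψ' : Cube n × Y → ℂ}
    (hn : NodeW α κ Λ g G w z a E ψ) (hI : TypeW κ δ g G w z a E)
    (hn' : NodeW α κ Λ g G w z a' E' ψ') (o : Option (Fin q))
    (ho : (2 : ℝ) ^ (-u * n) / g < ‖inner ℂ (WithLp.toLp 2 ψ' : Sp n Y)
      (lin (wd (Letter.op G z) (Tw T o)) (WithLp.toLp 2 ψ))‖) : TypeW κ δ g G w z a' E' := by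
  obtain ⟨f, φ, χ, c, hφ, hf, hf2, h1, hχ, hc, hNS⟩ := typeW_core hP hg hg1 hn hI
  have hfew := nodeW_few hP (hg.le.trans hg1) hn
  have hfew' := nodeW_few hP (hg.le.trans hg1) hn'
  by_contra hI'
  obtain ⟨τ, hτ⟩ : ∃ τ : ℝ, τ = (2 : ℝ) ^ (-u * n) := ⟨_, rfl⟩
  have hτ0 : 0 < τ := by rw [hτ]; positivity
  have hκ := hP.hκ
  have hκ1 := hP.hκ1
  obtain ⟨hη0, hη1, hη2, hη3, hη4⟩ := num_eta hκ hτ0 hP.hΛ r
  have hz := hP.hz
  rw [← hτ] at hg hχ hNS ho hz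
  have hg0 : 0 < g := hτ0.trans hg
  have hd : 0 < κ * g / 8 := by positivity
  have h1r : (1 : ℝ) ≤ 2 ^ r := one_le_pow₀ (by norm_num)
  have h2r : (0 : ℝ) < 2 ^ r := by positivity
  have hκτ : κ * τ ≤ τ := by nlinarith
  have hTw : ∀ l ∈ Tw T o, l.Ok k := by
    cases o with
    | none => intro l hl; exact absurd hl (by simp [Tw])
    | some j => exact hP.hT j
  have hTl : (Tw T o).length ≤ r := by
    cases o with
    | none => simp [Tw]
    | some j => exact hP.hrT j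
  have hpow : ∀ s, (Tw T o).length + s ≤ r + s := fun s => Nat.add_le_add_right hTl s
  -- the word applied to `φ`
  have hflt : ‖lin (wd (Letter.flt G δ z) (Tw T o)) φ‖ ≤ 2 ^ r := by
    have h2 := norm_wd_flt (δ := δ) hP.hm hP.hε hP.hG z (Tw T o) hTw φ
    rw [hφ, mul_one] at h2
    exact h2.trans (pow_le_pow_right₀ (by norm_num) hTl)
  have hopχ : ‖lin (wd (Letter.op G z) (Tw T o)) χ‖ ≤ 2 ^ r * ‖χ‖ := by
    have h2 := norm_wd_op (δ := δ) hP.hm hP.hε hP.hG z (Tw T o) hTw χ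
    exact h2.trans (mul_le_mul_of_nonneg_right (pow_le_pow_right₀ (by norm_num) hTl)
      (norm_nonneg _))
  have hdf : ‖lin (wd (Letter.flt G δ z) (Tw T o)) φ - lin (wd (Letter.op G z) (Tw T o)) φ‖ ≤
      κ * τ / 800 := by
    have h2 := wd_diff hP.hm hP.hε hP.hG hη0 z (Tw T o) hTw φ (by
      intro i
      cases o with
      | none => exact hNS none i
      | some j => exact hNS (some (Sum.inr (Sum.inr j))) i)
    refine h2.trans (le_trans ?_ hη2)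
    exact mul_le_mul_of_nonneg_right (pow_le_pow_right₀ (by norm_num) (hpow 1)) hη0
  rcases dichotomy (H := lin (Ham (Letter.flt G δ z) w a')) (lin_symm (ham_herm _ w a')) E' hd
    with h2 | h2
  · obtain ⟨f', φ', h3, h4, h5⟩ := h2
    exact hI' ⟨f', φ', h3, h4, h5⟩
  · obtain ⟨v0, hv1, hv2⟩ := h2 (lin (wd (Letter.flt G δ z) (Tw T o)) φ)
    obtain ⟨v, hv⟩ : ∃ v : Sp n Y, v = (((2 ^ r)⁻¹ : ℝ) : ℂ) • v0 := ⟨_, rfl⟩
    have hvn : ‖v‖ ≤ 1 := by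
      rw [hv, norm_smul, Complex.norm_real, Real.norm_of_nonneg (by positivity),
        inv_mul_le_iff₀ h2r, mul_one]
      exact hv1.trans hflt
    obtain ⟨d, hdd⟩ : ∃ d : ℝ, d = (2 ^ r)⁻¹ * (κ * g / 8) := ⟨_, rfl⟩
    have hd0 : 0 < d := by rw [hdd]; positivity
    have hd1 : d ≤ 1 := by
      rw [hdd, inv_mul_le_iff₀ h2r, mul_one]
      have : κ * g ≤ 1 := mul_le_one₀ hκ1 hg0.le hg1
      linarith
    have hveq : lin (Ham (Letter.flt G δ z) w a') v - (E' : ℂ) • v =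
        (d : ℂ) • lin (wd (Letter.flt G δ z) (Tw T o)) φ := by
      rw [hv, map_smul, smul_comm (E' : ℂ), ← smul_sub, hv2, smul_smul, hdd]
      congr 1
      push_cast
      ring
    have hNSv := hz.g2 a E f φ hn.coeff hφ hf hfew hf2 o a' E' d v hn'.coeff hfew'
      (nodeW_bound hP hn') hd0 hd1 hvn hveq
    have hdiff := ham_diff hP.hm hP.hε hP.hG hη0 z w T hP.hw hP.hr a' hn'.coeff v hNSv
    obtain ⟨hψ1, hψ2, -⟩ := nodeW_hilbert hn'
    have h3 := overlap_far (H := lin (Ham (Letter.op G z) w a'))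
      (N := lin (Ham (Letter.flt G δ z) w a') - lin (Ham (Letter.op G z) w a'))
      (lin_symm (ham_herm _ w a'))
      ((lin_symm (ham_herm _ w a')).sub (lin_symm (ham_herm _ w a'))) hd0 hψ1 hψ2
      (v := v) (u := lin (wd (Letter.flt G δ z) (Tw T o)) φ) (by
        rw [LinearMap.sub_apply, add_sub_cancel]
        exact hveq)
    rw [LinearMap.sub_apply] at h3
    obtain ⟨A, hA⟩ : ∃ A : ℝ, A = ‖inner ℂ (WithLp.toLp 2 ψ' : Sp n Y)
      (lin (wd (Letter.flt G δ z) (Tw T o)) φ)‖ := ⟨_, rfl⟩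
    rw [← hA] at h3
    have h5 : g * A ≤ 2 / 100 * τ := by
      have h6 : 2 ^ r * (d * A) ≤ κ * τ / 400 :=
        (mul_le_mul_of_nonneg_left (h3.trans hdiff) h2r.le).trans hη3
      have h7 : 2 ^ r * (d * A) = κ * g / 8 * A := by
        rw [hdd]
        field_simp
      rw [h7] at h6
      have h8 : κ * (g * A) ≤ κ * (2 / 100 * τ) := by linarith
      exact le_of_mul_le_mul_left h8 hκ
    -- the actual word
    have h6 : c * inner ℂ (WithLp.toLp 2 ψ' : Sp n Y)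
          (lin (wd (Letter.op G z) (Tw T o)) (WithLp.toLp 2 ψ)) =
        inner ℂ (WithLp.toLp 2 ψ' : Sp n Y) (lin (wd (Letter.flt G δ z) (Tw T o)) φ) -
          inner ℂ (WithLp.toLp 2 ψ' : Sp n Y) (lin (wd (Letter.flt G δ z) (Tw T o)) φ -
            lin (wd (Letter.op G z) (Tw T o)) φ) -
          inner ℂ (WithLp.toLp 2 ψ' : Sp n Y) (lin (wd (Letter.op G z) (Tw T o)) χ) := by
      rw [inner_sub_right, sub_sub_cancel]
      nth_rewrite 1 [h1]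
      rw [map_add, map_smul, inner_add_right, inner_smul_right]
      ring
    have h7 : ‖inner ℂ (WithLp.toLp 2 ψ' : Sp n Y)
        (lin (wd (Letter.op G z) (Tw T o)) χ)‖ ≤ 2 ^ r * ‖χ‖ := by
      refine (norm_inner_le_norm _ _).trans ?_
      rw [hψ1, one_mul]
      exact hopχ
    have h7' : ‖inner ℂ (WithLp.toLp 2 ψ' : Sp n Y) (lin (wd (Letter.flt G δ z) (Tw T o)) φ -
            lin (wd (Letter.op G z) (Tw T o)) φ)‖ ≤ κ * τ / 800 := by
      refine (norm_inner_le_norm _ _).trans ?_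
      rw [hψ1, one_mul]
      exact hdf
    have h8 : ‖c‖ * ‖inner ℂ (WithLp.toLp 2 ψ' : Sp n Y)
          (lin (wd (Letter.op G z) (Tw T o)) (WithLp.toLp 2 ψ))‖ ≤
        A + κ * τ / 800 + 2 ^ r * ‖χ‖ := by
      rw [← norm_mul, h6]
      refine (norm_sub_le _ _).trans (add_le_add ((norm_sub_le _ _).trans ?_) h7)
      rw [← hA]
      exact add_le_add (le_refl _) h7'
    rw [div_lt_iff₀ hg0] at ho
    have h9 := mul_le_mul_of_nonneg_left h8 hg0.le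
    have h10 : 99 / 100 * (‖inner ℂ (WithLp.toLp 2 ψ' : Sp n Y)
          (lin (wd (Letter.op G z) (Tw T o)) (WithLp.toLp 2 ψ))‖ * g) ≤
        ‖c‖ * (‖inner ℂ (WithLp.toLp 2 ψ' : Sp n Y)
          (lin (wd (Letter.op G z) (Tw T o)) (WithLp.toLp 2 ψ))‖ * g) :=
      mul_le_mul_of_nonneg_right hc (by positivity)
    have h11 : g * (κ * τ / 800) ≤ κ * τ / 800 := by
      have : 0 ≤ κ * τ / 800 := by positivity
      nlinarith
    nlinarith

theorem typeW_step' (hP : ParW α κ Λ u ε δ ν r G w T z) (hg : (2 : ℝ) ^ (-u * n) < g)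
    (hg1 : g ≤ 1) {a a' : Fin p → ℝ} {E E' : ℝ} {ψ ψ' : Cube n × Y → ℂ}
    (hn : NodeW α κ Λ g G w z a E ψ) (hI : TypeW κ δ g G w z a E)
    (hn' : NodeW α κ Λ g G w z a' E' ψ')
    (ho : (2 : ℝ) ^ (-u * n) / g < ‖star ψ' ⬝ᵥ ψ‖ ∨
      ∃ j, (2 : ℝ) ^ (-u * n) / g < ‖star ψ' ⬝ᵥ ((T j).map (Letter.op G z)).prod *ᵥ ψ‖) :
    TypeW κ δ g G w z a' E' := by
  rcases ho with ho | ⟨j, ho⟩
  · refine typeW_step hP hg hg1 hn hI hn' none ?_
    have h1 : lin (wd (Letter.op G z) (Tw T none)) (WithLp.toLp 2 ψ) = WithLp.toLp 2 ψ := by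
      change lin (wd (Letter.op G z) []) _ = _
      unfold wd
      rw [List.map_nil, List.prod_nil, lin_one']
    rw [h1, inner_toLp']
    exact ho
  · refine typeW_step hP hg hg1 hn hI hn' (some j) ?_
    rw [lin_eq, lin_toLp, inner_toLp']
    exact ho

theorem continuous_Ham {S : Type} [TopologicalSpace S] (f : Letter n m Y → Op n Y)
    (w : Fin p → List (Letter n m Y)) {a : S → Fin p → ℝ} (ha : Continuous a) :
    Continuous fun s => Ham f w (a s) := by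
  unfold Ham
  refine continuous_finset_sum _ fun i _ => ?_
  have h1 : Continuous fun s => (a s i : ℂ) :=
    Complex.continuous_ofReal.comp ((continuous_apply i).comp ha)
  exact h1.smul continuous_const

/-- all nodes of a continuous path have the same type -/
theorem typeW_path (hP : ParW α κ Λ u ε δ ν r G w T z) (hg : (2 : ℝ) ^ (-u * n) < g)
    (hg1 : g ≤ 1) {a : ℝ → Fin p → ℝ} {E : ℝ → ℝ} {ψ : ℝ → Cube n × Y → ℂ}
    (ha : ContinuousOn a (Set.Icc 0 1)) (hE : ContinuousOn E (Set.Icc 0 1))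
    (hn : ∀ s ∈ Set.Icc (0 : ℝ) 1, NodeW α κ Λ g G w z (a s) (E s) (ψ s))
    (h0 : TypeW κ δ g G w z (a 0) (E 0)) {s : ℝ} (hs : s ∈ Set.Icc (0 : ℝ) 1) :
    TypeW κ δ g G w z (a s) (E s) := by
  obtain ⟨τ, hτ⟩ : ∃ τ : ℝ, τ = (2 : ℝ) ^ (-u * n) := ⟨_, rfl⟩
  have hτ0 : 0 < τ := by rw [hτ]; positivity
  have hg0 : 0 < g := by rw [← hτ] at hg; exact hτ0.trans hg
  have ha' : Continuous fun s : Set.Icc (0 : ℝ) 1 => a s := ha.restrict
  have hE' : Continuous fun s : Set.Icc (0 : ℝ) 1 => E s := hE.restrict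
  have hH := continuous_Ham (Letter.op G z) w ha'
  have hr : τ / g < 1 := by
    rw [div_lt_one hg0, hτ]
    exact hg
  have hr0 : 0 < τ / g := div_pos hτ0 hg0
  -- a step size
  obtain ⟨ε1, hε1, hε2⟩ : ∃ ε1 : ℝ, 0 < ε1 ∧ (τ / g) ^ 2 < 1 - (2 * ε1 / g) ^ 2 := by
    refine ⟨g / 2 * (1 - τ / g), mul_pos (by positivity) (by linarith), ?_⟩
    have h1 : 2 * (g / 2 * (1 - τ / g)) / g = 1 - τ / g := by
      field_simp
    rw [h1]
    nlinarith
  have hloc : IsLocallyConstant fun s : Set.Icc (0 : ℝ) 1 =>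
      TypeW κ δ g G w z (a s) (E s) := by
    rw [IsLocallyConstant.iff_eventually_eq]
    intro s0
    have h1 : ∀ᶠ s : Set.Icc (0 : ℝ) 1 in nhds s0,
        esum (Ham (Letter.op G z) w (a s) - Ham (Letter.op G z) w (a s0)) < ε1 := by
      have h2 : Continuous fun s : Set.Icc (0 : ℝ) 1 =>
          esum (Ham (Letter.op G z) w (a s) - Ham (Letter.op G z) w (a s0)) :=
        continuous_esum.comp (hH.sub continuous_const)
      have h3 := h2.tendsto s0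
      rw [sub_self] at h3
      have h4 : esum (0 : Op n Y) = 0 := by
        unfold esum
        simp
      rw [h4] at h3
      exact h3.eventually (gt_mem_nhds hε1)
    have h2 : ∀ᶠ s : Set.Icc (0 : ℝ) 1 in nhds s0, |E s - E s0| < ε1 := by
      have h3 : Continuous fun s : Set.Icc (0 : ℝ) 1 => |E s - E s0| :=
        (hE'.sub continuous_const).abs
      have h4 := h3.tendsto s0
      rw [sub_self, abs_zero] at h4
      exact h4.eventually (gt_mem_nhds hε1)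
    filter_upwards [h1, h2] with s hs1 hs2
    have hn0 := hn s0 s0.2
    have hns := hn s s.2
    obtain ⟨k1, k2, k3⟩ := nodeW_hilbert hn0
    obtain ⟨l1, l2, -⟩ := nodeW_hilbert hns
    have h5 := overlap_near hg0 k1 l1 k2 l2 k3 (ε := ε1) (by
      rw [lin_eq, lin_eq, ← LinearMap.sub_apply, ← map_sub]
      refine (norm_lin_le_esum _ _).trans ?_
      rw [l1, mul_one]
      exact hs1.le) hs2.le
    have h6 : τ / g < ‖inner ℂ (WithLp.toLp 2 (ψ s0) : Sp n Y) (WithLp.toLp 2 (ψ s))‖ := by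
      by_contra h7
      push Not at h7
      have h8 := pow_le_pow_left₀ (norm_nonneg _) h7 2
      linarith
    have h7 : τ / g < ‖inner ℂ (WithLp.toLp 2 (ψ s) : Sp n Y) (WithLp.toLp 2 (ψ s0))‖ := by
      rwa [norm_inner_symm]
    rw [inner_toLp', hτ] at h6 h7
    refine propext ⟨fun h8 => ?_, fun h8 => ?_⟩
    · exact typeW_step' hP hg hg1 hns h8 hn0 (Or.inl h6)
    · exact typeW_step' hP hg hg1 hn0 h8 hns (Or.inl h7)
  have h1 := hloc.apply_eq_of_preconnectedSpace (⟨0, by simp⟩ : Set.Icc (0 : ℝ) 1) ⟨s, hs⟩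
  simp only at h1
  rw [← h1]
  exact h0

end chainW

theorem hard_of_goodW {α κ Λ t u ε δ ν : ℝ} (hκ : 0 < κ) (hκ1 : κ ≤ 1) (hΛ : 0 ≤ Λ)
    (hε0 : 0 ≤ ε) (hε : ε ≤ 1) (hν0 : 0 ≤ ν) (ht : ε + ν < t)
    (hsm : Λ * (r * 2 ^ (r + 1)) * (ν + ε + 2 / Real.sqrt (2 ^ k)) ≤ κ / 4) (hm : 0 < m)
    {G : Fin m → Clause n k} (hG : Typ ε δ ν G) (w : Fin p → List (Letter n m Y))
    (T : Fin q → List (Letter n m Y)) (hw : ∀ i, ∀ l ∈ w i, l.Ok k)
    (hr : ∀ i, (w i).length ≤ r) (hT : ∀ i, ∀ l ∈ T i, l.Ok k) (hrT : ∀ i, (T i).length ≤ r)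
    (z : Cube n)
    (hz : GoodW α κ Λ δ (κ * (2 : ℝ) ^ (-u * n) / (100 * (Λ + 1) * 4 ^ (r + 2))) r G w T z) :
    Hard α κ Λ t u G w T z := by
  have hP : ParW α κ Λ u ε δ ν r G w T z :=
    ⟨hκ, hκ1, hΛ, hε0, hε, hν0, hsm, hm, hG, hw, hr, hT, hrT, hz⟩
  intro g l a E ψ hg hg1 ha0 hpath hjump L hL
  have hτ0 : (0 : ℝ) < (2 : ℝ) ^ (-u * n) := by positivity
  have hg0 : 0 < g := hτ0.trans hg
  have hnode : ∀ i ≤ l, ∀ s ∈ Set.Icc (0 : ℝ) 1,
      NodeW α κ Λ g G w z (a i s) (E i s) (ψ i s) := by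
    intro i hi s hs
    obtain ⟨h1, h2, h3⟩ := (hpath i hi).2.2 s hs
    exact ⟨h1, h2, h3⟩
  have h01 : (0 : ℝ) ∈ Set.Icc (0 : ℝ) 1 := by simp
  have h11 : (1 : ℝ) ∈ Set.Icc (0 : ℝ) 1 := by simp
  have hall : ∀ i ≤ l, ∀ s ∈ Set.Icc (0 : ℝ) 1, TypeW κ δ g G w z (a i s) (E i s) := by
    intro i
    induction i with
    | zero =>
      intro hi s hs
      have h1 := hpath 0 hi
      exact typeW_path hP hg hg1 h1.1 h1.2.1 (hnode 0 hi)
        (typeW_start hκ hg0 (hnode 0 hi 0 h01) ha0) hs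
    | succ i ih =>
      intro hi s hs
      have h1 := hpath (i + 1) hi
      have hi' : i ≤ l := by omega
      exact typeW_path hP hg hg1 h1.1 h1.2.1 (hnode (i + 1) hi)
        (typeW_step' hP hg hg1 (hnode i hi' 1 h11) (ih hi' 1 h11) (hnode (i + 1) hi 0 h01)
          (hjump i (by omega))) hs
  have h2 := typeW_out hP hg hg1 (hnode l le_rfl 1 h11) (hall l le_rfl 1 h11)
  refine le_trans ?_ h2
  rw [← Real.sqrt_sq (norm_nonneg (nearP (hball δ z) (WithLp.toLp 2 (ψ l 1) : Sp n Y))),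
    nearP_sq]
  refine Real.sqrt_le_sqrt (sum_le_sum_of_subset_of_nonneg ?_ fun x _ _ =>
    sum_nonneg fun y _ => sq_nonneg _)
  intro x hx
  by_contra hxB
  have hm' : (0 : ℝ) < m := by exact_mod_cast hm
  have h3 := hL x hx
  have h4 := (viol_bounds hm hG x).1
  have h5 := wn_bound (z := z) hm hG hxB
  have h6 := pviol_eq G z x
  have h7 : (0 : ℝ) < 2 ^ k / m := by positivity
  have h8 : 2 ^ k / m * (pviol G z x : ℝ) ≤ 1 - t := by
    calc 2 ^ k / m * (pviol G z x : ℝ) ≤ 2 ^ k / m * ((1 - t) * m / 2 ^ k) :=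
          mul_le_mul_of_nonneg_left h3 h7.le
      _ = 1 - t := by field_simp
  rw [h6, mul_sub] at h8
  linarith

end Pool.Agent.H73.AW
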