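import Pool.Agent.H30.AW.Targets

/-!
# MP_70ba79_ag, board `aw_modules`: the local inequality for one curve
-/

set_option autoImplicit false

namespace Pool.Agent.H86.AW

open MvPolynomial SC Pool.Agent.H27.LV Pool.Agent.H30.AV Pool.Agent.H30.AW

section

variable {k K : Type} [Field k] [Field K] [Algebra k K] (v : DV k K)

/-- order at least `t / m` -/
def Rm (m : ℕ) (t : ℤ) (x : K) : Prop := x = 0 ∨ t ≤ m * v.ord x

variable {v} {m : ℕ}

theorem Rm.mono {s t : ℤ} {x : K} (h : Rm v m s x) (hst : t ≤ s) : Rm v m t x :=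
  h.imp id fun h => hst.trans h

theorem Rm.of_ge {t : ℤ} {x : K} (h : ge v t x) : Rm v m (m * t) x :=
  h.imp id fun h => mul_le_mul_of_nonneg_left h (Nat.cast_nonneg m)

theorem Rm.one : Rm v m 0 (1 : K) := by
  right
  rw [v.ord_one, mul_zero]

theorem Rm.mul {s t : ℤ} {x y : K} (hx : Rm v m s x) (hy : Rm v m t y) :
    Rm v m (s + t) (x * y) := by
  by_cases hx0 : x = 0
  · left; rw [hx0, zero_mul]
  by_cases hy0 : y = 0
  · left; rw [hy0, mul_zero]
  right
  have h1 := hx.resolve_left hx0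
  have h2 := hy.resolve_left hy0
  rw [v.ord_mul' hx0 hy0, mul_add]
  linarith

theorem Rm.add {t : ℤ} {x y : K} (hx : Rm v m t x) (hy : Rm v m t y) : Rm v m t (x + y) := by
  by_cases h : x + y = 0
  · exact Or.inl h
  right
  by_cases hx0 : x = 0
  · rw [hx0, zero_add] at h ⊢
    exact hy.resolve_left h
  by_cases hy0 : y = 0
  · rw [hy0, add_zero]
    exact hx.resolve_left hx0
  have h1 := hx.resolve_left hx0
  have h2 := hy.resolve_left hy0
  have h3 := mul_le_mul_of_nonneg_left (v.ord_add x y hx0 hy0 h) (Nat.cast_nonneg (α := ℤ) m)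
  rcases min_choice (v.ord x) (v.ord y) with h4 | h4 <;> rw [h4] at h3 <;> linarith

theorem Rm.pow {t : ℤ} {x : K} (h : Rm v m t x) (n : ℕ) : Rm v m (n * t) (x ^ n) := by
  induction n with
  | zero =>
    rw [pow_zero]
    exact Rm.one.mono (by simp)
  | succ n ih =>
    rw [pow_succ]
    refine (ih.mul h).mono ?_
    push_cast
    linarith

theorem Rm.prod {ι : Type} (s : Finset ι) (f : ι → K) (t : ι → ℤ)
    (h : ∀ i ∈ s, Rm v m (t i) (f i)) : Rm v m (∑ i ∈ s, t i) (∏ i ∈ s, f i) := by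
  classical
  induction s using Finset.induction_on with
  | empty =>
    rw [Finset.prod_empty, Finset.sum_empty]
    exact Rm.one
  | insert a s ha ih =>
    rw [Finset.prod_insert ha, Finset.sum_insert ha]
    exact (h a (Finset.mem_insert_self _ _)).mul
      (ih fun i hi => h i (Finset.mem_insert_of_mem hi))

theorem Rm.sum {ι : Type} (s : Finset ι) (f : ι → K) (t : ℤ) (h : ∀ i ∈ s, Rm v m t (f i)) :
    Rm v m t (∑ i ∈ s, f i) := by
  classical
  induction s using Finset.induction_on with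
  | empty => exact Or.inl (by simp)
  | insert a s ha ih =>
    rw [Finset.sum_insert ha]
    exact (h a (Finset.mem_insert_self _ _)).add
      (ih fun i hi => h i (Finset.mem_insert_of_mem hi))

/-- values of forms -/
theorem Rm.form {τ : Type} {t : ℤ} (f : τ → K) (hf : ∀ s, Rm v m t (f s))
    (H : MvPolynomial τ k) {M : ℕ} (hH : H.IsHomogeneous M) : Rm v m (M * t) (aeval f H) := by
  rw [← support_sum_monomial_coeff H, map_sum]
  apply Rm.sum
  intro μ hμ
  rw [aeval_monomial]
  have h1 : Rm v m 0 (algebraMap k K (coeff μ H)) :=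
    (Rm.of_ge (ge_const v _)).mono (by simp)
  have h2 : Rm v m (M * t) (μ.prod fun i n => f i ^ n) := by
    rw [hH.degree_eq_sum_deg_support hμ, Finsupp.prod]
    have h3 := Rm.prod μ.support (fun i => f i ^ μ i) (fun i => (μ i : ℤ) * t)
      fun i _ => (hf i).pow (μ i)
    refine h3.mono (le_of_eq ?_)
    rw [← Finset.sum_mul]
    push_cast
    rfl
  exact (h1.mul h2).mono (by linarith)

end

section core

variable {k K : Type} [Field k] [Field K] [Algebra k K] {v : DV k K}

/-- the bilinear form of a matrix with integral entries up to a scalar -/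
theorem bil_ord {n : ℕ} {W : Zw n → K} {p₀ : Zw n} {γ₀ : Zw n → k} (hp : W p₀ ≠ 0)
    (hγ : ∀ p, ge v 1 (W p / W p₀ - algebraMap k K (γ₀ p))) (a b : Fin (n + 1) → k)
    (h0 : bil b γ₀ a ≠ 0) :
    bil (evk K b) W (evk K a) ≠ 0 ∧ v.ord (bil (evk K b) W (evk K a)) ≤ v.ord (W p₀) := by
  by_contra hcon
  apply h0
  have h1 : ge v (v.ord (W p₀) + 1) (bil (evk K b) W (evk K a)) := by
    by_cases h2 : bil (evk K b) W (evk K a) = 0
    · exact Or.inl h2
    · right
      by_contra h3
      exact hcon ⟨h2, by omega⟩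
  have h2 : ge v (-v.ord (W p₀)) (W p₀)⁻¹ := by
    right
    have h3 := v.ord_mul' hp (inv_ne_zero hp)
    rw [mul_inv_cancel₀ hp, v.ord_one] at h3
    omega
  have h3 : ge v 1 (bil (evk K b) W (evk K a) * (W p₀)⁻¹) := (h1.mul h2).mono (by omega)
  have h4 : algebraMap k K (bil b γ₀ a) = bil (evk K b) W (evk K a) * (W p₀)⁻¹ -
      ∑ s, ∑ t, algebraMap k K (b s) * (W (s, t) / W p₀ - algebraMap k K (γ₀ (s, t))) *
        algebraMap k K (a t) := by
    unfold bil evk
    rw [Finset.sum_mul, ← Finset.sum_sub_distrib, map_sum]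
    refine Finset.sum_congr rfl fun s _ => ?_
    rw [Finset.sum_mul, ← Finset.sum_sub_distrib, map_sum]
    refine Finset.sum_congr rfl fun t _ => ?_
    rw [map_mul, map_mul]
    ring
  have h5 : ge v 1 (∑ s, ∑ t, algebraMap k K (b s) *
      (W (s, t) / W p₀ - algebraMap k K (γ₀ (s, t))) * algebraMap k K (a t)) := by
    refine ge_sum v _ _ _ fun s _ => ge_sum v _ _ _ fun t _ => ?_
    have h6 := ((ge_const v (b s)).mul (hγ (s, t))).mul (ge_const v (a t))
    exact h6.mono (by omega)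
  exact const_eq_zero v one_pos (h4 ▸ h3.sub h5)

theorem bil_ge {n : ℕ} {W : Zw n → K} {t : ℤ} (hW : ∀ p, ge v t (W p))
    (a b : Fin (n + 1) → k) : ge v t (bil (evk K b) W (evk K a)) := by
  unfold bil
  refine ge_sum v _ _ _ fun s _ => ge_sum v _ _ _ fun u _ => ?_
  have h6 := ((ge_const v (b s)).mul (hW (s, u))).mul (ge_const v (a u))
  exact h6.mono (by omega)

/-- the local inequality -/
theorem local_core {m n q r β N w : ℕ} {c e : Finset (Fin q) → ℕ} {a : Fin q → Fin (n + 1) → k}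
    {b : Fin q → Fin 2 → Fin (n + 1) → k} {W : Zw n → K} {G : MvPolynomial (Zw n) k}
    {g : Finset (Fin q) → MvPolynomial (Zw n) k}
    {h : Finset (Fin q) → (Fin q → Fin (w + 1)) → MvPolynomial (Zw n) k} {κ : ℤ}
    {L : Fin q → ℤ} (hRAT : ∀ z : K, 0 ≤ v.ord z → ∃ c : k, ge v 1 (z - algebraMap k K c))
    (hm : 2 ≤ m) (hA : ∀ i, 0 ≤ L i) (hB : ∀ p, ge v κ (W p))
    (hC : ∀ i d, bil (evk K (b i d)) W (evk K (a i)) = 0 ∨
      m * κ + (m - 1) * L i ≤ m * v.ord (bil (evk K (b i d)) W (evk K (a i))))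
    (hD : ∀ I : Finset (Fin q), (∀ i ∈ I, 0 < L i) → I.card ≤ r)
    (hE : ∀ (p₀ : Zw n) (γ₀ : Zw n → k), W p₀ ≠ 0 →
      (∀ p, ge v 1 (W p / W p₀ - algebraMap k K (γ₀ p))) →
      ∀ I : Finset (Fin q), (∀ i ∈ I, ∀ d, bil (b i d) γ₀ (a i) = 0) → 2 * I.card ≤ β + 1)
    (hwr : w * r ≤ N) (hG : G.IsHomogeneous N) (hg : ∀ I, (g I).IsHomogeneous (c I))
    (hh : ∀ I J, (h I J).IsHomogeneous (e I))
    (hrel : ∀ I : Finset (Fin q), 2 * I.card ≤ β + 1 → e I + w * I.card = N + c I ∧
      aeval W (g I * G) = ∑ J : Fin q → Fin (w + 1),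
        (∏ i ∈ I, bil (evk K (b i 0)) W (evk K (a i)) ^ (J i : ℕ) *
          bil (evk K (b i 1)) W (evk K (a i)) ^ (w - (J i : ℕ))) * aeval W (h I J))
    (hne : aeval W (G * ∏ I, g I) ≠ 0) :
    m * (N + ∑ I, (c I : ℤ)) * κ + w * ((m - 1) * ∑ i, L i) ≤
      m * v.ord (aeval W (G * ∏ I, g I)) := by
  classical
  have hm' : (2 : ℤ) ≤ m := by exact_mod_cast hm
  -- the sum of the contact orders
  have hI0 : ∀ x : ℤ, 0 ≤ x → (m - 1) * ∑ i, L i - r * x ≤
      ∑ i, max 0 ((m - 1) * L i - x) := by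
    intro x hx
    obtain ⟨I, hI⟩ : ∃ I : Finset (Fin q), I = Finset.univ.filter fun i => 0 < L i := ⟨_, rfl⟩
    have h1 : I.card ≤ r := hD I fun i hi => by
      rw [hI, Finset.mem_filter] at hi
      exact hi.2
    have h2 : ∑ i, L i = ∑ i ∈ I, L i := by
      rw [hI, Finset.sum_filter]
      refine Finset.sum_congr rfl fun i _ => ?_
      split_ifs with h2
      · rfl
      · exact le_antisymm (not_lt.1 h2) (hA i)
    have h3 : ∑ i ∈ I, max 0 ((m - 1) * L i - x) ≤ ∑ i, max 0 ((m - 1) * L i - x) :=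
      Finset.sum_le_sum_of_subset_of_nonneg (Finset.subset_univ _)
        fun i _ _ => le_max_left _ _
    have h4 : ∑ i ∈ I, ((m - 1) * L i - x) ≤ ∑ i ∈ I, max 0 ((m - 1) * L i - x) :=
      Finset.sum_le_sum fun i _ => le_max_right _ _
    rw [Finset.sum_sub_distrib, ← Finset.mul_sum, Finset.sum_const, nsmul_eq_mul, ← h2] at h4
    have h5 : (I.card : ℤ) * x ≤ r * x :=
      mul_le_mul_of_nonneg_right (by exact_mod_cast h1) hx
    linarith
  obtain ⟨Θ, hΘ⟩ : ∃ Θ, Θ = aeval W (G * ∏ I, g I) := ⟨_, rfl⟩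
  rw [← hΘ] at hne ⊢
  obtain ⟨M, hM⟩ : ∃ M : ℤ, M = N + ∑ I, (c I : ℤ) := ⟨_, rfl⟩
  have hMN : (N : ℤ) ≤ M := by
    rw [hM]
    have : 0 ≤ ∑ I, (c I : ℤ) := Finset.sum_nonneg fun _ _ => Nat.cast_nonneg _
    linarith
  rw [← hM]
  have hform : ∀ t : ℤ, (∀ p, Rm v m t (W p)) → Rm v m (M * t) Θ := by
    intro t ht
    rw [hΘ, map_mul, map_prod]
    have h1 := Rm.form W ht G hG
    have h2 := Rm.prod Finset.univ (fun I => aeval W (g I)) (fun I => (c I : ℤ) * t)
      fun I _ => Rm.form W ht (g I) (hg I)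
    refine (h1.mul h2).mono (le_of_eq ?_)
    rw [hM, ← Finset.sum_mul]
    ring
  by_cases hW : ∀ p, W p = 0
  · -- the form is constant
    have h1 : M ≤ 0 := by
      by_contra hcon
      have h2 := (hform (|m * v.ord Θ| + 1) fun p => Or.inl (hW p)).resolve_left hne
      have h3 := le_abs_self (m * v.ord Θ)
      have h4 := abs_nonneg (m * v.ord Θ)
      nlinarith
    have h2 : N = 0 := by omega
    have h3 : M = 0 := by
      have : (N : ℤ) = 0 := by rw [h2]; rfl
      omega
    have h4 := (hform κ fun p => Or.inl (hW p)).resolve_left hne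
    have h5 : (w : ℤ) * ((m - 1) * ∑ i, L i) ≤ 0 := by
      rw [h2, Nat.le_zero, Nat.mul_eq_zero] at hwr
      rcases hwr with h6 | h6
      · rw [h6]
        simp
      · have h7 : ∀ i, L i = 0 := by
          intro i
          by_contra h8
          have h9 := hD {i} fun j hj => by
            rw [Finset.mem_singleton] at hj
            rw [hj]
            exact lt_of_le_of_ne (hA i) (Ne.symm h8)
          rw [Finset.card_singleton, h6] at h9
          omega
        simp [h7]
    rw [h3] at h4 ⊢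
    linarith
  · -- minimal order
    push Not at hW
    obtain ⟨p₁, hp₁⟩ := hW
    obtain ⟨p₀, hp₀, hmin⟩ := Finset.exists_min_image (Finset.univ.filter fun p => W p ≠ 0)
      (fun p => v.ord (W p)) ⟨p₁, by simpa using hp₁⟩
    have hp0 : W p₀ ≠ 0 := by simpa using hp₀
    obtain ⟨μ, hμ⟩ : ∃ μ : ℤ, μ = v.ord (W p₀) := ⟨_, rfl⟩
    have hWμ : ∀ p, ge v μ (W p) := by
      intro p
      by_cases h1 : W p = 0
      · exact Or.inl h1
      · right
        rw [hμ]
        exact hmin p (by simpa using h1)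
    have hε : κ ≤ μ := by
      rw [hμ]
      exact (hB p₀).resolve_left hp0
    have hRW : ∀ p, Rm v m (m * μ) (W p) := fun p => Rm.of_ge (hWμ p)
    have hγ : ∀ p, ∃ γ : k, ge v 1 (W p / W p₀ - algebraMap k K γ) := by
      intro p
      refine hRAT _ ?_
      by_cases h1 : W p = 0
      · rw [h1, zero_div, v.ord_zero]
      · have h2 := (hWμ p).resolve_left h1
        rw [v.ord_div h1 hp0, ← hμ]
        linarith
    choose γ₀ hγ₀ using hγ
    obtain ⟨I', hI'⟩ : ∃ I' : Finset (Fin q), I' =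
      Finset.univ.filter fun i => ∀ d, bil (b i d) γ₀ (a i) = 0 := ⟨_, rfl⟩
    have hI'β : 2 * I'.card ≤ β + 1 := hE p₀ γ₀ hp0 hγ₀ I' fun i hi => by
      rw [hI', Finset.mem_filter] at hi
      exact hi.2
    have hout : ∀ i, i ∉ I' → (m - 1) * L i - m * (μ - κ) ≤ 0 := by
      intro i hi
      have h1 : ∃ d, bil (b i d) γ₀ (a i) ≠ 0 := by
        by_contra hcon
        push Not at hcon
        apply hi
        rw [hI', Finset.mem_filter]
        exact ⟨Finset.mem_univ _, hcon⟩
      obtain ⟨d, hd⟩ := h1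
      obtain ⟨h2, h3⟩ := bil_ord hp0 hγ₀ (a i) (b i d) hd
      have h4 := (hC i d).resolve_left h2
      rw [← hμ] at h3
      have h5 := mul_le_mul_of_nonneg_left h3 (show (0 : ℤ) ≤ m by linarith)
      linarith
    -- orders of the two forms
    obtain ⟨t, ht⟩ : ∃ t : Fin q → ℤ, t = fun i => max (m * μ) (m * κ + (m - 1) * L i) :=
      ⟨_, rfl⟩
    have hT : ∀ i d, Rm v m (t i) (bil (evk K (b i d)) W (evk K (a i))) := by
      intro i d
      have h1 : Rm v m (m * μ) (bil (evk K (b i d)) W (evk K (a i))) :=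
        Rm.of_ge (bil_ge hWμ (a i) (b i d))
      rcases hC i d with h2 | h2
      · exact Or.inl h2
      rcases h1 with h1 | h1
      · exact Or.inl h1
      right
      rw [ht]
      exact max_le h1 h2
    obtain ⟨he, hrelI⟩ := hrel I' hI'β
    have hgG : Rm v m (w * ∑ i ∈ I', t i + e I' * (m * μ)) (aeval W (g I' * G)) := by
      rw [hrelI]
      refine Rm.sum _ _ _ fun J _ => ?_
      refine Rm.mul ?_ (Rm.form W hRW (h I' J) (hh I' J))
      have h1 := Rm.prod I' (fun i => bil (evk K (b i 0)) W (evk K (a i)) ^ (J i : ℕ) *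
          bil (evk K (b i 1)) W (evk K (a i)) ^ (w - (J i : ℕ))) (fun i => (w : ℤ) * t i) (by
        intro i _
        refine (((hT i 0).pow (J i : ℕ)).mul ((hT i 1).pow (w - (J i : ℕ)))).mono
          (le_of_eq ?_)
        have h2 : (J i : ℕ) ≤ w := by have := (J i).2; omega
        have h3 : ((w - (J i : ℕ) : ℕ) : ℤ) = w - ((J i : ℕ) : ℤ) := by
          push_cast [h2]
          ring
        rw [h3]
        ring)
      refine h1.mono (le_of_eq ?_)
      rw [Finset.mul_sum]
    have hrest := Rm.prod (Finset.univ.erase I') (fun I => aeval W (g I))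
      (fun I => (c I : ℤ) * (m * μ)) fun I _ => Rm.form W hRW (g I) (hg I)
    have hΘ2 : Θ = aeval W (g I' * G) * ∏ I ∈ Finset.univ.erase I', aeval W (g I) := by
      rw [hΘ, map_mul, map_mul, map_prod, ← Finset.mul_prod_erase Finset.univ _
        (Finset.mem_univ I')]
      ring
    have hfin := hgG.mul hrest
    rw [← hΘ2] at hfin
    have hfin' := hfin.resolve_left hne
    have hc : ∑ I ∈ Finset.univ.erase I', (c I : ℤ) * (m * μ) =
        (M - N - c I') * (m * μ) := by
      rw [← Finset.sum_mul, hM, ← Finset.add_sum_erase Finset.univ (fun I => (c I : ℤ))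
        (Finset.mem_univ I')]
      ring
    have he' : (e I' : ℤ) = N + c I' - w * I'.card := by
      have : (e I' : ℤ) + w * I'.card = N + c I' := by exact_mod_cast he
      linarith
    have hsum : ∑ i ∈ I', t i = ∑ i, max 0 ((m - 1) * L i - m * (μ - κ)) +
        I'.card * (m * μ) := by
      have h1 : ∑ i, max 0 ((m - 1) * L i - m * (μ - κ)) =
          ∑ i ∈ I', max 0 ((m - 1) * L i - m * (μ - κ)) := by
        symm
        refine Finset.sum_subset (Finset.subset_univ _) fun i _ hi => ?_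
        exact max_eq_left (hout i hi)
      have h2 : (I'.card : ℤ) * (m * μ) = ∑ _i ∈ I', (m : ℤ) * μ := by
        rw [Finset.sum_const, nsmul_eq_mul]
      rw [h1, h2, ← Finset.sum_add_distrib]
      refine Finset.sum_congr rfl fun i _ => ?_
      have h3 : t i = max (m * μ) (m * κ + (m - 1) * L i) := by rw [ht]
      rw [h3, ← max_add_add_right, zero_add]
      congr 1
      ring
    rw [hc, he', hsum] at hfin'
    have hmε : 0 ≤ (m : ℤ) * (μ - κ) := mul_nonneg (by linarith) (by linarith)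
    have h6 := mul_le_mul_of_nonneg_left (hI0 (m * (μ - κ)) hmε) (Nat.cast_nonneg (α := ℤ) w)
    have h7 : (w : ℤ) * r * (m * (μ - κ)) ≤ M * (m * (μ - κ)) := by
      refine mul_le_mul_of_nonneg_right (le_trans ?_ hMN) hmε
      exact_mod_cast hwr
    linarith

end core

end Pool.Agent.H86.AW
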